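import Pool.Agent.Helper36.TQ.Quad

/-!
# Polynomials of degree at most one
-/

namespace Pool.Agent.Helper36.TQ

open Matrix MvPolynomial

variable {k : Type} [CommRing k] {σ : Type} [Fintype σ]

/-- polynomials of degree at most one -/
noncomputable def lp (b : σ → k) (c : k) : MvPolynomial σ k := (fun i => C (b i)) ⬝ᵥ X + C c

theorem aeval_lp {V : Type} [CommRing V] [Algebra k V] (b : σ → k) (c : k)
    (x : σ → V) : aeval x (lp b c) = (∑ i, algebraMap k V (b i) * x i) + algebraMap k V c := by
  simp only [lp, dotProduct, map_add, map_sum, map_mul, aeval_C, aeval_X]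

theorem lp_add (b b' : σ → k) (c c' : k) : lp b c + lp b' c' = lp (b + b') (c + c') := by
  simp only [lp, dotProduct, Pi.add_apply, map_add, add_mul, Finset.sum_add_distrib]
  ring

theorem lp_const (r : k) : lp (0 : σ → k) r = C r := by
  simp [lp, dotProduct]

theorem lp_single [DecidableEq σ] (i : σ) (r : k) :
    lp (Pi.single i r : σ → k) 0 = C r * X i := by
  simp only [lp, dotProduct, map_zero, add_zero]
  rw [Finset.sum_eq_single i]
  · rw [Pi.single_eq_same]
  · intro j _ hj
    rw [Pi.single_eq_of_ne hj, map_zero, zero_mul]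
  · intro h
    exact absurd (Finset.mem_univ i) h

theorem exists_lp (f : MvPolynomial σ k) (hf : f.totalDegree ≤ 1) :
    ∃ (b : σ → k) (c : k), f = lp b c := by
  classical
  suffices H : ∀ (d : σ →₀ ℕ) (r : k), (d.sum fun _ e => e) ≤ 1 →
      ∃ (b : σ → k) (c : k), monomial d r = lp b c by
    have h1 : ∀ s : Finset (σ →₀ ℕ), s ⊆ f.support →
        ∃ (b : σ → k) (c : k), ∑ d ∈ s, monomial d (coeff d f) = lp b c := by
      intro s
      induction s using Finset.induction_on with
      | empty => exact fun _ => ⟨0, 0, by rw [Finset.sum_empty, lp_const, map_zero]⟩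
      | insert a s ha ih =>
        intro hs
        obtain ⟨b, c, h⟩ := ih (fun x hx => hs (Finset.mem_insert_of_mem hx))
        obtain ⟨b', c', h'⟩ := H a (coeff a f)
          ((le_totalDegree (hs (Finset.mem_insert_self _ _))).trans hf)
        exact ⟨b' + b, c' + c, by rw [Finset.sum_insert ha, h, h', lp_add]⟩
    obtain ⟨b, c, h⟩ := h1 f.support (fun _ h => h)
    exact ⟨b, c, by rw [← h]; exact f.as_sum⟩
  intro d r hd
  have hsum : ∀ (i : σ) (d' : σ →₀ ℕ), ((Finsupp.single i 1 + d').sum fun _ e => e) =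
      1 + d'.sum fun _ e => e := by
    intro i d'
    rw [Finsupp.sum_add_index' (fun _ => rfl) (fun _ _ _ => rfl),
      Finsupp.sum_single_index rfl]
  by_cases h0 : d = 0
  · subst h0
    exact ⟨0, r, by rw [lp_const]; rfl⟩
  obtain ⟨i, d', rfl⟩ := exists_peel h0
  rw [hsum] at hd
  have h1 : d' = 0 := by
    by_contra h1
    obtain ⟨j, d'', rfl⟩ := exists_peel h1
    rw [hsum] at hd
    omega
  subst h1
  refine ⟨Pi.single i r, 0, ?_⟩
  rw [lp_single, add_zero, ← pow_one (X i : MvPolynomial σ k), C_mul_X_pow_eq_monomial]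

end Pool.Agent.Helper36.TQ
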