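import Pool.Agent.Helper36.TQ.Isotropic

/-!
# Polynomials of degree at most two
-/

namespace Pool.Agent.Helper36.TQ

open Matrix MvPolynomial

section

variable {k : Type} [CommRing k] {σ τ : Type}

theorem td_bind (φ : σ → MvPolynomial τ k) (hφ : ∀ i, (φ i).totalDegree ≤ 1)
    (f : MvPolynomial σ k) : (bind₁ φ f).totalDegree ≤ f.totalDegree := by
  classical
  conv_lhs => rw [f.as_sum, map_sum]
  apply totalDegree_finsetSum_le
  intro d hd
  rw [bind₁_monomial]
  refine (totalDegree_mul _ _).trans ?_
  rw [totalDegree_C, zero_add]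
  refine (totalDegree_finsetProd _ _).trans ?_
  refine (Finset.sum_le_sum fun i hi =>
    (totalDegree_pow _ _).trans (Nat.mul_le_mul_left _ (hφ i))).trans ?_
  simp only [mul_one]
  exact le_totalDegree hd

theorem map_qf {R S : Type} [CommRing R] [CommRing S] {n : Type} [Fintype n] (f : R →+* S)
    (A : Matrix n n R) (x : n → R) : f (qf A x) = qf (A.map f) (fun i => f (x i)) := by
  simp only [qf, dotProduct, mulVec, map_sum, map_mul, Matrix.map_apply]

theorem map_bf {R S : Type} [CommRing R] [CommRing S] {n : Type} [Fintype n] (f : R →+* S)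
    (A : Matrix n n R) (x y : n → R) :
    f (bf A x y) = bf (A.map f) (fun i => f (x i)) (fun i => f (y i)) := by
  simp only [bf, dotProduct, mulVec, map_sum, map_mul, map_add, Matrix.map_apply]

theorem map_dot {R S : Type} [CommRing R] [CommRing S] {n : Type} [Fintype n] (f : R →+* S)
    (x y : n → R) : f (x ⬝ᵥ y) = (fun i => f (x i)) ⬝ᵥ (fun i => f (y i)) := by
  simp only [dotProduct, map_sum, map_mul]

variable [Fintype σ]

/-- polynomials of degree at most two -/
noncomputable def qp (A : Matrix σ σ k) (b : σ → k) (c : k) : MvPolynomial σ k :=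
  qf (A.map C) X + (fun i => C (b i)) ⬝ᵥ X + C c

theorem aeval_qp {V : Type} [CommRing V] [Algebra k V] (A : Matrix σ σ k) (b : σ → k) (c : k)
    (x : σ → V) : aeval x (qp A b c) = qf (A.map (algebraMap k V)) x +
      (fun i => algebraMap k V (b i)) ⬝ᵥ x + algebraMap k V c := by
  have h1 : ∀ p : MvPolynomial σ k, aeval x p = (aeval x : MvPolynomial σ k →ₐ[k] V).toRingHom p :=
    fun _ => rfl
  have h2 : ∀ r : k, (aeval x : MvPolynomial σ k →ₐ[k] V).toRingHom (C r) = algebraMap k V r :=
    fun r => by
      change aeval x (C r) = _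
      rw [aeval_C]
  have h3 : ∀ i : σ, (aeval x : MvPolynomial σ k →ₐ[k] V).toRingHom (X i) = x i :=
    fun i => by
      change aeval x (X i) = _
      rw [aeval_X]
  rw [qp, h1, map_add, map_add, map_qf, map_dot, h2]
  simp only [h2, h3]
  congr 3
  rw [Matrix.map_map]
  congr 1
  funext r
  exact h2 r

theorem qp_add (A A' : Matrix σ σ k) (b b' : σ → k) (c c' : k) :
    qp A b c + qp A' b' c' = qp (A + A') (b + b') (c + c') := by
  simp only [qp, qf, dotProduct, mulVec, Matrix.map_apply, Matrix.add_apply, Pi.add_apply, map_add,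
    add_mul, mul_add, Finset.sum_add_distrib]
  ring

theorem qp_zero : qp (0 : Matrix σ σ k) 0 0 = 0 := by
  simp [qp, qf, dotProduct, mulVec]

theorem qp_const (r : k) : qp (0 : Matrix σ σ k) 0 r = C r := by
  simp [qp, qf, dotProduct, mulVec]

theorem qp_single [DecidableEq σ] (i : σ) (r : k) :
    qp (0 : Matrix σ σ k) (Pi.single i r) 0 = C r * X i := by
  simp only [qp, qf, dotProduct, mulVec, Matrix.map_apply, Matrix.zero_apply, map_zero, zero_mul,
    Finset.sum_const_zero, mul_zero, zero_add, add_zero]
  rw [Finset.sum_eq_single i]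
  · rw [Pi.single_eq_same]
  · intro j _ hj
    rw [Pi.single_eq_of_ne hj, map_zero, zero_mul]
  · intro h
    exact absurd (Finset.mem_univ i) h

theorem qp_double [DecidableEq σ] (i j : σ) (r : k) :
    qp (Matrix.single i j r : Matrix σ σ k) 0 0 = C r * X i * X j := by
  simp only [qp, qf, dotProduct, mulVec, Matrix.map_apply, Pi.zero_apply, map_zero, zero_mul,
    Finset.sum_const_zero, add_zero]
  rw [Finset.sum_eq_single i]
  · rw [Finset.sum_eq_single j]
    · rw [Matrix.single_apply_same]
      ring
    · intro l _ hl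
      rw [Matrix.single_apply_of_ne, map_zero, zero_mul]
      rintro ⟨-, h⟩
      exact hl h.symm
    · intro h
      exact absurd (Finset.mem_univ j) h
  · intro l _ hl
    apply mul_eq_zero_of_right
    apply Finset.sum_eq_zero
    intro l' _
    rw [Matrix.single_apply_of_ne, map_zero, zero_mul]
    rintro ⟨h, -⟩
    exact hl h.symm
  · intro h
    exact absurd (Finset.mem_univ i) h

theorem exists_peel {d : σ →₀ ℕ} (hd : d ≠ 0) : ∃ (i : σ) (d' : σ →₀ ℕ),
    d = Finsupp.single i 1 + d' := by
  classical
  obtain ⟨i, hi⟩ := Finsupp.ne_iff.1 hd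
  have hle : Finsupp.single i 1 ≤ d := by
    rw [Finsupp.single_le_iff]
    have : d i ≠ 0 := by simpa using hi
    omega
  exact ⟨i, d - Finsupp.single i 1, (add_tsub_cancel_of_le hle).symm⟩

theorem exists_qp (f : MvPolynomial σ k) (hf : f.totalDegree ≤ 2) :
    ∃ (A : Matrix σ σ k) (b : σ → k) (c : k), f = qp A b c := by
  classical
  suffices H : ∀ (d : σ →₀ ℕ) (r : k), (d.sum fun _ e => e) ≤ 2 →
      ∃ (A : Matrix σ σ k) (b : σ → k) (c : k), monomial d r = qp A b c by
    have h1 : ∀ s : Finset (σ →₀ ℕ), s ⊆ f.support →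
        ∃ (A : Matrix σ σ k) (b : σ → k) (c : k), ∑ d ∈ s, monomial d (coeff d f) = qp A b c := by
      intro s
      induction s using Finset.induction_on with
      | empty => exact fun _ => ⟨0, 0, 0, by rw [Finset.sum_empty, qp_zero]⟩
      | insert a s ha ih =>
        intro hs
        obtain ⟨A, b, c, h⟩ := ih (fun x hx => hs (Finset.mem_insert_of_mem hx))
        obtain ⟨A', b', c', h'⟩ := H a (coeff a f)
          ((le_totalDegree (hs (Finset.mem_insert_self _ _))).trans hf)
        exact ⟨A' + A, b' + b, c' + c, by rw [Finset.sum_insert ha, h, h', qp_add]⟩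
    obtain ⟨A, b, c, h⟩ := h1 f.support (fun _ h => h)
    exact ⟨A, b, c, by rw [← h]; exact f.as_sum⟩
  intro d r hd
  have hsum : ∀ (i : σ) (d' : σ →₀ ℕ), ((Finsupp.single i 1 + d').sum fun _ e => e) =
      1 + d'.sum fun _ e => e := by
    intro i d'
    rw [Finsupp.sum_add_index' (fun _ => rfl) (fun _ _ _ => rfl),
      Finsupp.sum_single_index rfl]
  by_cases h0 : d = 0
  · subst h0
    exact ⟨0, 0, r, by rw [qp_const]; rfl⟩
  obtain ⟨i, d', rfl⟩ := exists_peel h0
  rw [hsum] at hd
  by_cases h1 : d' = 0
  · subst h1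
    refine ⟨0, Pi.single i r, 0, ?_⟩
    rw [qp_single, add_zero, ← pow_one (X i : MvPolynomial σ k), C_mul_X_pow_eq_monomial]
  obtain ⟨j, d'', rfl⟩ := exists_peel h1
  rw [hsum] at hd
  have h2 : d'' = 0 := by
    by_contra h2
    obtain ⟨l, d3, rfl⟩ := exists_peel h2
    rw [hsum] at hd
    omega
  subst h2
  refine ⟨Matrix.single i j r, 0, 0, ?_⟩
  rw [qp_double, add_zero, monomial_single_add, ← pow_one (X j : MvPolynomial σ k), mul_assoc,
    mul_comm (X i) _, ← mul_assoc, C_mul_X_pow_eq_monomial, mul_comm]
  simp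

end

section

variable {k : Type} [Field k]

/-- Restriction of a polynomial of degree at most two to the lines in the direction of an isotropic
vector. -/
theorem exists_split {m : ℕ} (A : Matrix (Fin (m + 1)) (Fin (m + 1)) k) (b : Fin (m + 1) → k)
    (c : k) (e : Fin (m + 1) → k) (he : qf A e = 0) (j : Fin (m + 1)) :
    ∃ b1 c1 : MvPolynomial (Fin m) k, b1.totalDegree ≤ 1 ∧ c1.totalDegree ≤ 2 ∧
      ∀ (V : Type) [CommRing V] [Algebra k V] (y : Fin m → V) (v : V),
        aeval (fun i => (Fin.insertNth j 0 y : Fin (m + 1) → V) i + v * algebraMap k V (e i))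
          (qp A b c) = aeval y c1 + v * aeval y b1 := by
  classical
  let φ : Fin (m + 1) → MvPolynomial (Fin m) k :=
    Fin.insertNth (α := fun _ => MvPolynomial (Fin m) k) j 0 X
  have hφ : ∀ i, (φ i).totalDegree ≤ 1 := by
    intro i
    refine Fin.succAboveCases j ?_ (fun l => ?_) i
    · simp [φ]
    · simp only [φ, Fin.insertNth_apply_succAbove]
      exact (totalDegree_X l).le
  have hφV : ∀ (V : Type) [CommRing V] [Algebra k V] (y : Fin m → V) (i : Fin (m + 1)),
      aeval y (φ i) = (Fin.insertNth (α := fun _ => V) j 0 y : Fin (m + 1) → V) i := by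
    intro V _ _ y i
    refine Fin.succAboveCases j ?_ (fun l => ?_) i
    · simp [φ]
    · simp [φ]
  refine ⟨bf (A.map C) φ (fun i => C (e i)) + (fun i => C (b i)) ⬝ᵥ (fun i => C (e i)),
    bind₁ φ (qp A b c), ?_, ?_, ?_⟩
  · have hC : ∀ r : k, (C r : MvPolynomial (Fin m) k).totalDegree = 0 := fun r => totalDegree_C r
    have hs : ∀ g : Fin (m + 1) → MvPolynomial (Fin m) k, (∀ i, (g i).totalDegree ≤ 1) →
        (∑ i, g i).totalDegree ≤ 1 := fun g hg => totalDegree_finsetSum_le (fun i _ => hg i)
    have hmC : ∀ (r : k) (g : MvPolynomial (Fin m) k), g.totalDegree ≤ 1 →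
        (C r * g).totalDegree ≤ 1 := by
      intro r g hg
      refine (totalDegree_mul _ _).trans ?_
      rw [hC, zero_add]
      exact hg
    refine (totalDegree_add _ _).trans (max_le ?_ ?_)
    · rw [bf]
      refine (totalDegree_add _ _).trans (max_le ?_ ?_)
      · rw [dotProduct]
        apply hs
        intro i
        refine (totalDegree_mul _ _).trans ?_
        have h1 : ((A.map C *ᵥ fun i => C (e i)) i : MvPolynomial (Fin m) k) = C ((A *ᵥ e) i) := by
          simp only [mulVec, dotProduct, Matrix.map_apply, map_sum, map_mul]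
        rw [h1, hC, add_zero]
        exact hφ i
      · rw [dotProduct]
        apply hs
        intro i
        apply hmC
        rw [mulVec, dotProduct]
        apply hs
        intro l
        exact hmC _ _ (hφ l)
    · rw [dotProduct]
      apply hs
      intro i
      exact hmC _ _ (by rw [hC]; exact zero_le_one)
  · refine (td_bind φ hφ _).trans ?_
    rw [qp]
    have hX : ∀ i : Fin (m + 1), (X i : MvPolynomial (Fin (m + 1)) k).totalDegree ≤ 1 :=
      fun i => (totalDegree_X i).le
    have hC : ∀ r : k, (C r : MvPolynomial (Fin (m + 1)) k).totalDegree = 0 :=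
      fun r => totalDegree_C r
    refine (totalDegree_add _ _).trans (max_le ((totalDegree_add _ _).trans (max_le ?_ ?_)) ?_)
    · rw [qf, dotProduct]
      apply totalDegree_finsetSum_le
      intro i _
      refine (totalDegree_mul _ _).trans ?_
      have h1 : ((A.map C *ᵥ X) i : MvPolynomial (Fin (m + 1)) k).totalDegree ≤ 1 := by
        rw [mulVec, dotProduct]
        apply totalDegree_finsetSum_le
        intro l _
        refine (totalDegree_mul _ _).trans ?_
        rw [Matrix.map_apply, hC, zero_add]
        exact hX l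
      have h2 := hX i
      omega
    · rw [dotProduct]
      apply totalDegree_finsetSum_le
      intro i _
      refine (totalDegree_mul _ _).trans ?_
      rw [hC, zero_add]
      exact (hX i).trans one_le_two
    · rw [hC]
      exact Nat.zero_le _
  · intro V _ _ y v
    have h1 : ∀ p : MvPolynomial (Fin m) k,
        aeval y p = (aeval y : MvPolynomial (Fin m) k →ₐ[k] V).toRingHom p := fun _ => rfl
    have h2 : ∀ r : k, (aeval y : MvPolynomial (Fin m) k →ₐ[k] V).toRingHom (C r) =
        algebraMap k V r := fun r => by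
      change aeval y (C r) = _
      rw [aeval_C]
    have h3 : aeval y (bind₁ φ (qp A b c)) = aeval (fun i => aeval y (φ i)) (qp A b c) := by
      rw [aeval_bind₁]
    have h4 : ((A.map C : Matrix (Fin (m + 1)) (Fin (m + 1)) (MvPolynomial (Fin m) k)).map
        ((aeval y : MvPolynomial (Fin m) k →ₐ[k] V).toRingHom)) = A.map (algebraMap k V) := by
      rw [Matrix.map_map]
      congr 1
      funext r
      exact h2 r
    have h5 : aeval y (bf (A.map C) φ (fun i => C (e i)) +
        (fun i => C (b i)) ⬝ᵥ (fun i => C (e i))) =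
        bf (A.map (algebraMap k V)) (fun i => aeval y (φ i)) (fun i => algebraMap k V (e i)) +
        (fun i => algebraMap k V (b i)) ⬝ᵥ (fun i => algebraMap k V (e i)) := by
      rw [h1, map_add, map_bf, map_dot, h4]
      simp only [h2]
      rfl
    rw [h3, h5]
    have h6 : (fun i => (Fin.insertNth (α := fun _ => V) j 0 y : Fin (m + 1) → V) i +
        v * algebraMap k V (e i)) = (1 : V) • (fun i => aeval y (φ i)) +
          v • (fun i => algebraMap k V (e i)) := by
      funext i
      simp only [Pi.add_apply, Pi.smul_apply, smul_eq_mul, one_mul, hφV]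
    rw [h6, aeval_qp, aeval_qp, qf_comb]
    have h7 : qf (A.map (algebraMap k V)) (fun i => algebraMap k V (e i)) = 0 := by
      rw [← map_qf, he, map_zero]
    rw [h7, dotProduct_add, dotProduct_smul, dotProduct_smul]
    simp only [smul_eq_mul]
    ring

end

end Pool.Agent.Helper36.TQ
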