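import Pool.Agent.Helper87.CC.SOps
import Pool.Agent.Helper62.RO.Univ
import Pool.Agent.Helper36.TQ.Quad

/-!
# The class of algebras over a finite field given by a class of rings
-/

namespace Pool.Agent.Helper36.TQ

open TensorProduct
open Pool.Agent.Helper62.RO
open Pool.Agent.Helper87.CC

section

variable (W A : Type) [CommRing W] [CommRing A]

theorem ten_quot (a : A) :
    Nonempty (Ten W (A ⧸ Ideal.span {a}) ≃+* Ten W A ⧸ Ideal.span {tinr W A a}) := by
  obtain ⟨e, -⟩ := (isTen W (A ⧸ Ideal.span {a})).equiv ((isTen W A).quot (Ideal.span {a}))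
  exact ⟨e.trans (Ideal.quotEquivOfEq (by rw [Ideal.map_span, Set.image_singleton]))⟩

theorem ten_away (a : A) :
    Nonempty (Ten W (Localization.Away a) ≃+* Localization.Away (tinr W A a)) := by
  obtain ⟨e, -⟩ := (isTen W (Localization.Away a)).equiv
    ((isTen W A).away (a := a) (Localization.Away a) (Localization.Away (tinr W A a)))
  exact ⟨e⟩

theorem ten_poly : Nonempty (Ten W (Polynomial A) ≃+* Polynomial (Ten W A)) := by
  obtain ⟨e, -⟩ := (isTen W (Polynomial A)).equiv ((isTen W A).poly)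
  exact ⟨e⟩

variable {W A}

theorem ten_ft (hW : Algebra.FiniteType ℤ W) (hA : Algebra.FiniteType ℤ A) :
    Algebra.FiniteType ℤ (Ten W A) := by
  have h : Algebra.FiniteType ℤ (W ⊗[ℤ] A) := Algebra.FiniteType.trans (S := W) hW inferInstance
  have h2 : ∀ (i j : Algebra ℤ (W ⊗[ℤ] A)), @Algebra.FiniteType ℤ (W ⊗[ℤ] A) _ _ i →
      @Algebra.FiniteType ℤ (W ⊗[ℤ] A) _ _ j := by
    intro i j hi
    rwa [Subsingleton.elim j i]
  exact h2 _ _ h

theorem ftZ {k : Type} [Field k] [Finite k] [Algebra k A] (h : Algebra.FiniteType k A) :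
    Algebra.FiniteType ℤ A := by
  have h1 : Algebra.FiniteType ℤ k := inferInstance
  exact Algebra.FiniteType.trans (S := k) h1 h

end

/-- algebras whose product with `W` is in `S` -/
def MW (S : ∀ (A : Type) [CommRing A], Prop) (W : Type) [CommRing W] (k : Type) [Field k] :
    Cls k :=
  fun A _ _ => Algebra.FiniteType k A ∧ S (Ten W A)

variable {S : ∀ (A : Type) [CommRing A], Prop} {W : Type} [CommRing W] {k : Type} [Field k]

theorem mw_iso (hS : SOps S) (A B : Type) [CommRing A] [Algebra k A] [CommRing B] [Algebra k B]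
    (e : A ≃ₐ[k] B) (h : MW S W k A) : MW S W k B := by
  obtain ⟨e1⟩ := ten_congr (RingEquiv.refl W) e.toRingEquiv
  exact ⟨Algebra.FiniteType.equiv h.1 e, hS.iso _ _ e1 h.2⟩

theorem good_mem (hS : SOps S) {E : Fun k} {p : Pr E} (h : Good (MW S W k) E p) {A : Type}
    [CommRing A] [Algebra k A] {a : E.obj A} (ha : Rep E p A a) : MW S W k A := by
  obtain ⟨B, _, _, b, hb, hB⟩ := h
  obtain ⟨e⟩ := hb.equiv ha
  exact mw_iso hS _ _ e hB

theorem good_ft {E : Fun k} {p : Pr E} (h : Good (MW S W k) E p) : Good (Ft k) E p :=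
  h.mono (fun _ _ _ hA => hA.1)

theorem good_glue [Finite k] (hS : SOps S) (hW : S W) {E : Fun k} {p : Pr E}
    (h : Good (Ft k) E p) (u : Crd E)
    (h1 : Good (MW S W k) E (fun V _ _ x => p V x ∧ u.val V x = 0))
    (h2 : Good (MW S W k) E (fun V _ _ x => p V x ∧ IsUnit (u.val V x))) :
    Good (MW S W k) E p := by
  obtain ⟨A, _, _, a, ha, hA⟩ := h
  have h3 := good_mem hS h1 (ha.cls1 u)
  have h4 := good_mem hS h2 (ha.opn u)
  refine ⟨A, _, _, a, ha, hA, hS.glue _ (tinr W A (u.val A a)) (ten_ft (hS.ft W hW) (ftZ hA)) ?_ ?_⟩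
  · obtain ⟨e⟩ := ten_quot W A (u.val A a)
    exact hS.iso _ _ e h3.2
  · obtain ⟨e⟩ := ten_away W A (u.val A a)
    exact hS.iso _ _ e h4.2

theorem good_opn (hS : SOps S) {E : Fun k} {p : Pr E} (h : Good (MW S W k) E p) (u : Crd E)
    (h1 : Good (MW S W k) E (fun V _ _ x => p V x ∧ u.val V x = 0)) :
    Good (MW S W k) E (fun V _ _ x => p V x ∧ IsUnit (u.val V x)) := by
  obtain ⟨A, _, _, a, ha, hA⟩ := h
  have h3 := good_mem hS h1 (ha.cls1 u)
  refine ⟨_, _, _, _, ha.opn u, Algebra.FiniteType.trans (S := A) hA.1 inferInstance, ?_⟩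
  obtain ⟨e⟩ := ten_away W A (u.val A a)
  obtain ⟨e1⟩ := ten_quot W A (u.val A a)
  exact hS.iso _ _ e.symm (hS.opn _ _ hA.2 (hS.iso _ _ e1 h3.2))

theorem rep_line {E : Fun k} {p : Pr E} {A : Type} [CommRing A] [Algebra k A] {a : E.obj A}
    (h : Rep E p A a) : Rep (E.prod line) (fun V _ _ x => p V x.1) (Polynomial A)
      (E.map (Algebra.ofId A (Polynomial A) |>.restrictScalars k) a, (Polynomial.X : Polynomial A))
    := by
  have h0 : ∀ b : A, (Algebra.ofId A (Polynomial A) |>.restrictScalars k) b = Polynomial.C b :=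
    fun _ => rfl
  refine ⟨?_, ?_, ?_⟩
  · intro V _ _ f
    change p V (E.map f (E.map _ a))
    rw [← E.comp_map]
    exact h.mem V _
  · rintro V _ _ x hx
    obtain ⟨f, hf⟩ := h.ex V x.1 hx
    let F : Polynomial A →ₐ[k] V :=
      { Polynomial.eval₂RingHom (f : A →+* V) x.2 with
        commutes' := fun r => by
          change Polynomial.eval₂ (f : A →+* V) x.2 (Polynomial.C (algebraMap k A r)) = _
          rw [Polynomial.eval₂_C]
          exact f.commutes r }
    have hF : ∀ q, F q = Polynomial.eval₂ (f : A →+* V) x.2 q := fun _ => rfl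
    refine ⟨F, Prod.ext ?_ ?_⟩
    · change E.map _ (E.map _ a) = x.1
      rw [← E.comp_map, ← hf]
      congr 1
      ext b
      change F (Polynomial.C b) = f b
      rw [hF, Polynomial.eval₂_C]
      rfl
    · change F Polynomial.X = x.2
      rw [hF, Polynomial.eval₂_X]
  · intro V _ _ f g hfg
    have h1 : E.map f (E.map _ a) = E.map g (E.map _ a) := congrArg Prod.fst hfg
    have h2 : f Polynomial.X = g Polynomial.X := congrArg Prod.snd hfg
    rw [← E.comp_map, ← E.comp_map] at h1
    have h3 := h.uniq V _ _ h1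
    have h4 : (f : Polynomial A →+* V) = (g : Polynomial A →+* V) := by
      apply Polynomial.ringHom_ext
      · intro b
        exact DFunLike.congr_fun h3 b
      · exact h2
    exact AlgHom.ext fun b => RingHom.congr_fun h4 b

theorem good_line (hS : SOps S) {E : Fun k} {p : Pr E} (h : Good (MW S W k) E p) :
    Good (MW S W k) (E.prod line) (fun V _ _ x => p V x.1) := by
  obtain ⟨A, _, _, a, ha, hA⟩ := h
  refine ⟨_, _, _, _, rep_line ha, Algebra.FiniteType.trans (S := A) hA.1 inferInstance, ?_⟩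
  obtain ⟨e⟩ := ten_poly W A
  exact hS.iso _ _ e.symm (hS.poly _ hA.2)

/-- inverses of units are natural -/
theorem map_inv_unit {V V' : Type} [CommRing V] [CommRing V'] (f : V →+* V') {r : V}
    (hr : IsUnit r) : f (Ring.inverse r) = Ring.inverse (f r) := by
  have h1 : f r * f (Ring.inverse r) = 1 := by
    rw [← map_mul, Ring.mul_inverse_cancel r hr, map_one]
  have h2 : f r * Ring.inverse (f r) = 1 := Ring.mul_inverse_cancel _ (hr.map f)
  have h3 : IsUnit (f r) := hr.map f
  exact h3.mul_left_cancel (h1.trans h2.symm)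

end Pool.Agent.Helper36.TQ
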