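import Pool.Agent.Helper36.TQ.Cls

/-!
# Extensions of the base field
-/

namespace Pool.Agent.Helper36.TQ

open TensorProduct
open Pool.Agent.Helper62.RO
open Pool.Agent.Helper87.CC

/-- base change -/
theorem isTen_baseChange {W A X : Type} [CommRing W] [CommRing A] [CommRing X]
    [Algebra A X] {i : W →+* X} (h : IsTen i (algebraMap A X)) (B : Type) [CommRing B]
    [Algebra A B] :
    IsTen ((Algebra.TensorProduct.includeLeftRingHom : X →+* X ⊗[A] B).comp i)
      ((Algebra.TensorProduct.includeRight : B →ₐ[A] X ⊗[A] B) : B →+* X ⊗[A] B) where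
  ex E _ f g := by
    obtain ⟨u, h1, h2⟩ := h.ex E f (g.comp (algebraMap A B))
    let _ : Algebra A E := (g.comp (algebraMap A B)).toAlgebra
    let u' : X →ₐ[A] E := { u with commutes' := fun a => RingHom.congr_fun h2 a }
    let g' : B →ₐ[A] E := { g with commutes' := fun a => rfl }
    refine ⟨(Algebra.TensorProduct.lift u' g' (fun _ _ => Commute.all _ _) :
      X ⊗[A] B →ₐ[A] E).toRingHom, ?_, ?_⟩
    · ext w
      have h3 : (Algebra.TensorProduct.lift u' g' (fun _ _ => Commute.all _ _) :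
          X ⊗[A] B →ₐ[A] E) (i w ⊗ₜ 1) = u' (i w) := by simp
      have h4 : u' (i w) = f w := RingHom.congr_fun h1 w
      exact h3.trans h4
    · ext b
      have h3 : (Algebra.TensorProduct.lift u' g' (fun _ _ => Commute.all _ _) :
          X ⊗[A] B →ₐ[A] E) (1 ⊗ₜ b) = g' b := by simp
      exact h3
  uniq E _ u v h1 h2 := by
    have h3 : u.comp (Algebra.TensorProduct.includeLeftRingHom : X →+* X ⊗[A] B) =
        v.comp (Algebra.TensorProduct.includeLeftRingHom : X →+* X ⊗[A] B) := by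
      apply h.uniq
      · exact h1
      · ext a
        have h4 := RingHom.congr_fun h2 (algebraMap A B a)
        have h5 : (algebraMap A X a) ⊗ₜ[A] (1 : B) = (1 : X) ⊗ₜ[A] (algebraMap A B a) := by
          rw [Algebra.algebraMap_eq_smul_one, Algebra.algebraMap_eq_smul_one,
            TensorProduct.smul_tmul]
        change u ((algebraMap A X a) ⊗ₜ[A] (1 : B)) = v ((algebraMap A X a) ⊗ₜ[A] (1 : B))
        rw [h5]
        exact h4
    apply RingHom.ext
    intro z
    induction z with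
    | zero => rw [map_zero, map_zero]
    | add a b ha hb => rw [map_add, map_add, ha, hb]
    | tmul x b =>
      have h4 : x ⊗ₜ[A] b = (x ⊗ₜ[A] (1 : B)) * ((1 : X) ⊗ₜ[A] b) := by
        rw [Algebra.TensorProduct.tmul_mul_tmul, mul_one, one_mul]
      rw [h4, map_mul, map_mul]
      have h5 : u (x ⊗ₜ[A] (1 : B)) = v (x ⊗ₜ[A] (1 : B)) := RingHom.congr_fun h3 x
      have h6 : u ((1 : X) ⊗ₜ[A] b) = v ((1 : X) ⊗ₜ[A] b) := RingHom.congr_fun h2 b
      rw [h5, h6]

variable {S : ∀ (A : Type) [CommRing A], Prop}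

theorem transfer_ext (hS : SOps S) {W A : Type} [CommRing W] [CommRing A] {k k' : Type} [Field k]
    [Field k'] [Algebra k k'] [FiniteDimensional k k'] [Algebra k A]
    (hW : Algebra.FiniteType ℤ W) (hA : Algebra.FiniteType ℤ A)
    (h : S (Ten W (A ⊗[k] k'))) : S (Ten W A) := by
  rcases subsingleton_or_nontrivial (Ten W A) with hs | hs
  · exact hS.zero _ hs
  let _ : Algebra A (Ten W A) := (tinr W A).toAlgebra
  have h1 : IsTen (tinl W A) (algebraMap A (Ten W A)) := isTen W A
  obtain ⟨e, -⟩ := (isTen W (A ⊗[k] k')).equiv (isTen_baseChange h1 (A ⊗[k] k'))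
  have h2 : S ((Ten W A) ⊗[A] (A ⊗[k] k')) := hS.iso _ _ e h
  let b := Module.Free.chooseBasis k k'
  let b1 := Algebra.TensorProduct.basis A b
  let b2 := Algebra.TensorProduct.basis (Ten W A) b1
  have h3 : Nontrivial ((Ten W A) ⊗[A] (A ⊗[k] k')) := by
    obtain ⟨i⟩ : Nonempty (Module.Free.ChooseBasisIndex k k') := inferInstance
    exact ⟨⟨b2 i, 0, b2.ne_zero i⟩⟩
  exact hS.transfer (Ten W A) ((Ten W A) ⊗[A] (A ⊗[k] k')) (ten_ft hW hA) h2

/-- systems of equations over an extension field -/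
theorem nonempty_sys_equiv {k k' : Type} [Field k] [Field k'] [Algebra k k'] {n : ℕ}
    (T : Set (MvPolynomial (Fin n) k)) :
    Nonempty ((MvPolynomial (Fin n) k' ⧸ Ideal.span (MvPolynomial.map (algebraMap k k') '' T)) ≃+*
      ((MvPolynomial (Fin n) k ⧸ Ideal.span T) ⊗[k] k')) := by
  let e1 := Algebra.TensorProduct.tensorQuotientEquiv (R := k) k (MvPolynomial (Fin n) k) k'
    (Ideal.span T)
  let e2 := MvPolynomial.algebraTensorAlgEquiv (σ := Fin n) k k'
  let I : Ideal (k' ⊗[k] MvPolynomial (Fin n) k) :=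
    (Ideal.span T).map (Algebra.TensorProduct.includeRight :
      MvPolynomial (Fin n) k →ₐ[k] k' ⊗[k] MvPolynomial (Fin n) k)
  have h : Ideal.span (MvPolynomial.map (algebraMap k k') '' T) =
      I.map (e2.toRingEquiv : k' ⊗[k] MvPolynomial (Fin n) k →+* MvPolynomial (Fin n) k') := by
    rw [show I = (Ideal.span T).map (Algebra.TensorProduct.includeRight :
      MvPolynomial (Fin n) k →ₐ[k] k' ⊗[k] MvPolynomial (Fin n) k) from rfl,
      Ideal.map_span, Ideal.map_span, ← Set.image_comp]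
    congr 1
    apply Set.image_congr
    intro p _
    change _ = e2 (1 ⊗ₜ p)
    rw [MvPolynomial.algebraTensorAlgEquiv_tmul, one_smul]
  exact ⟨((Ideal.quotientEquiv I _ e2.toRingEquiv h).symm.trans e1.symm.toRingEquiv).trans
    (Algebra.TensorProduct.comm k k' (MvPolynomial (Fin n) k ⧸ Ideal.span T)).toRingEquiv⟩

theorem descend (hS : SOps S) {W : Type} [CommRing W] {k k' : Type} [Field k] [Finite k]
    [Field k'] [Algebra k k'] [FiniteDimensional k k'] (hW : Algebra.FiniteType ℤ W) {n : ℕ}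
    (T : Set (MvPolynomial (Fin n) k))
    (h : S (Ten W (MvPolynomial (Fin n) k' ⧸
      Ideal.span (MvPolynomial.map (algebraMap k k') '' T)))) :
    S (Ten W (MvPolynomial (Fin n) k ⧸ Ideal.span T)) := by
  obtain ⟨e⟩ := nonempty_sys_equiv (k' := k') T
  obtain ⟨e1⟩ := ten_congr (T := W) (T' := W)
    (A := MvPolynomial (Fin n) k' ⧸ Ideal.span (MvPolynomial.map (algebraMap k k') '' T))
    (A' := (MvPolynomial (Fin n) k ⧸ Ideal.span T) ⊗[k] k') (RingEquiv.refl W) e
  have h1 : Algebra.FiniteType k (MvPolynomial (Fin n) k ⧸ Ideal.span T) :=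
    Algebra.FiniteType.of_surjective (Ideal.Quotient.mkₐ k _) Ideal.Quotient.mk_surjective
  exact transfer_ext hS (k := k) (k' := k') hW (ftZ (k := k) h1) (hS.iso _ _ e1 h)

end Pool.Agent.Helper36.TQ
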