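import Pool.Agent.Helper36.TQ.Cls

/-!
# Pencils of quadrics and the main step
-/

namespace Pool.Agent.Helper36.TQ

open TensorProduct
open Pool.Agent.Helper62.RO
open Pool.Agent.Helper87.CC

/-- quadrics over bases of dimension at most one -/
def Fam (S : ∀ (A : Type) [CommRing A], Prop) : Prop :=
  ∀ (R W : Type) [CommRing R] [CommRing W], Algebra.FiniteType ℤ R → ringKrullDim R ≤ 1 → S W →
    ∀ (m : ℕ) (L : Finset (MvPolynomial (Fin m) R)) (f : MvPolynomial (Fin m) R),
      (∀ l ∈ L, l.totalDegree ≤ 1) → f.totalDegree ≤ 2 →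
      S (Ten W (MvPolynomial (Fin m) R ⧸ Ideal.span (insert f (L : Set (MvPolynomial (Fin m) R)))))

variable {S : ∀ (A : Type) [CommRing A], Prop} {W : Type} [CommRing W] {k : Type} [Field k]

/-- evaluation of polynomials with coefficients in `k[t]` -/
noncomputable def ev {V : Type} [CommRing V] [Algebra k V] {m : ℕ} (t : V) (x : Fin m → V) :
    MvPolynomial (Fin m) (Polynomial k) →+* V :=
  MvPolynomial.eval₂Hom ((Polynomial.aeval t : Polynomial k →ₐ[k] V) : Polynomial k →+* V) x

theorem ev_pencil {V : Type} [CommRing V] [Algebra k V] {m : ℕ} (t : V) (x : Fin m → V)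
    (P Q : MvPolynomial (Fin m) k) :
    ev t x (MvPolynomial.map Polynomial.C P +
      MvPolynomial.C Polynomial.X * MvPolynomial.map Polynomial.C Q) =
      MvPolynomial.aeval x P + t * MvPolynomial.aeval x Q := by
  have h1 : ∀ P : MvPolynomial (Fin m) k, ev t x (MvPolynomial.map Polynomial.C P) =
      MvPolynomial.aeval x P := by
    intro P
    rw [ev, MvPolynomial.eval₂Hom_map_hom, MvPolynomial.aeval_def, MvPolynomial.coe_eval₂Hom]
    congr 1
    ext r
    simp
  rw [map_add, map_mul, h1, h1]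
  congr 2
  rw [ev, MvPolynomial.eval₂Hom_C]
  simp

theorem rep_family {m : ℕ} (T : Set (MvPolynomial (Fin m) (Polynomial k))) :
    ∃ a, Rep ((line (k := k)).prod (Aff (Fin m))) (fun V _ _ x => ∀ g ∈ T, ev x.1 x.2 g = 0)
      (MvPolynomial (Fin m) (Polynomial k) ⧸ Ideal.span T) a := by
  set A := MvPolynomial (Fin m) (Polynomial k) ⧸ Ideal.span T with hA
  let π : MvPolynomial (Fin m) (Polynomial k) →ₐ[k] A := Ideal.Quotient.mkₐ k (Ideal.span T)
  have key : ∀ (V : Type) [CommRing V] [Algebra k V]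
      (f : MvPolynomial (Fin m) (Polynomial k) →ₐ[k] V),
      ev (f (MvPolynomial.C Polynomial.X)) (fun i => f (MvPolynomial.X i)) =
        (f : MvPolynomial (Fin m) (Polynomial k) →+* V) := by
    intro V _ _ f
    apply MvPolynomial.ringHom_ext
    · intro r
      rw [ev, MvPolynomial.eval₂Hom_C]
      have h1 : ((Polynomial.aeval (f (MvPolynomial.C Polynomial.X)) : Polynomial k →ₐ[k] V) :
          Polynomial k →+* V) = (f : MvPolynomial (Fin m) (Polynomial k) →+* V).comp
            MvPolynomial.C := by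
        apply Polynomial.ringHom_ext
        · intro c
          have h2 : (MvPolynomial.C (Polynomial.C c) : MvPolynomial (Fin m) (Polynomial k)) =
              algebraMap k _ c := rfl
          change Polynomial.aeval _ (Polynomial.C c) = f (MvPolynomial.C (Polynomial.C c))
          rw [Polynomial.aeval_C, h2, f.commutes]
        · change Polynomial.aeval _ Polynomial.X = f (MvPolynomial.C Polynomial.X)
          rw [Polynomial.aeval_X]
      exact RingHom.congr_fun h1 r
    · intro i
      rw [ev, MvPolynomial.eval₂Hom_X']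
      rfl
  refine ⟨(π (MvPolynomial.C Polynomial.X), fun i => π (MvPolynomial.X i)), ⟨?_, ?_, ?_⟩⟩
  · intro V _ _ f g hg
    have h1 := key V (f.comp π)
    have h2 := RingHom.congr_fun h1 g
    have h3 : π g = 0 := Ideal.Quotient.eq_zero_iff_mem.2 (Ideal.subset_span hg)
    have h4 : (f.comp π : MvPolynomial (Fin m) (Polynomial k) →+* V) g = f (π g) := rfl
    rw [h4, h3, map_zero] at h2
    exact h2
  · rintro V _ _ ⟨t, x⟩ hx
    let F0 : MvPolynomial (Fin m) (Polynomial k) →ₐ[k] V :=
      { ev t x with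
        commutes' := fun r => by
          change ev t x (MvPolynomial.C (Polynomial.C r)) = _
          rw [ev, MvPolynomial.eval₂Hom_C]
          simp }
    have hF0 : ∀ g, F0 g = ev t x g := fun _ => rfl
    have h1 : ∀ a ∈ Ideal.span T, F0 a = 0 := by
      have : Ideal.span T ≤ RingHom.ker F0 := by
        rw [Ideal.span_le]
        intro g hg
        exact hx g hg
      exact fun a ha => this ha
    refine ⟨Ideal.Quotient.liftₐ (Ideal.span T) F0 h1, Prod.ext ?_ ?_⟩
    · change F0 (MvPolynomial.C Polynomial.X) = t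
      rw [hF0, ev, MvPolynomial.eval₂Hom_C]
      simp
    · funext i
      change F0 (MvPolynomial.X i) = x i
      rw [hF0, ev, MvPolynomial.eval₂Hom_X']
  · intro V _ _ f g hfg
    apply Ideal.Quotient.algHom_ext
    have h1 := key V (f.comp π)
    have h2 := key V (g.comp π)
    have h3 : f (π (MvPolynomial.C Polynomial.X)) = g (π (MvPolynomial.C Polynomial.X)) :=
      congrArg Prod.fst hfg
    have h4 : (fun i => f (π (MvPolynomial.X i))) = fun i => g (π (MvPolynomial.X i)) :=
      congrArg Prod.snd hfg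
    have h5 : (f.comp π : MvPolynomial (Fin m) (Polynomial k) →+* V) = (g.comp π :) := by
      rw [← h1, ← h2]
      change ev (f (π _)) (fun i => f (π _)) = ev (g (π _)) (fun i => g (π _))
      rw [h3, h4]
    exact AlgHom.ext fun b => RingHom.congr_fun h5 b

theorem td_pencil {m : ℕ} (P Q : MvPolynomial (Fin m) k) (d : ℕ) (hP : P.totalDegree ≤ d)
    (hQ : Q.totalDegree ≤ d) : (MvPolynomial.map (Polynomial.C : k →+* Polynomial k) P +
      MvPolynomial.C Polynomial.X * MvPolynomial.map Polynomial.C Q).totalDegree ≤ d := by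
  have h1 : ∀ P : MvPolynomial (Fin m) k, P.totalDegree ≤ d →
      (MvPolynomial.map (Polynomial.C : k →+* Polynomial k) P).totalDegree ≤ d := by
    intro P hP
    unfold MvPolynomial.totalDegree at hP ⊢
    exact (Finset.sup_mono (MvPolynomial.support_map_subset _ _)).trans hP
  refine (MvPolynomial.totalDegree_add _ _).trans (max_le (h1 P hP) ?_)
  refine (MvPolynomial.totalDegree_mul _ _).trans ?_
  rw [MvPolynomial.totalDegree_C, zero_add]
  exact h1 Q hQ

theorem dim_polynomial_le : ringKrullDim (Polynomial k) ≤ 1 := by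
  have : Ring.DimensionLEOne (Polynomial k) := inferInstance
  exact (Ring.krullDimLE_iff (n := 1)).1 (Ring.krullDimLE_one_iff_of_noZeroDivisors.2
    (fun I hI hp => this.maximalOfPrime hI hp))

theorem good_pencil [Finite k] (hW : S W) (hfam : Fam S) {m : ℕ}
    (L : Finset (MvPolynomial (Fin m) k × MvPolynomial (Fin m) k))
    (hL : ∀ l ∈ L, l.1.totalDegree ≤ 1 ∧ l.2.totalDegree ≤ 1)
    (f : MvPolynomial (Fin m) k × MvPolynomial (Fin m) k)
    (hf : f.1.totalDegree ≤ 2 ∧ f.2.totalDegree ≤ 2) :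
    Good (MW S W k) ((line (k := k)).prod (Aff (Fin m))) (fun V _ _ x =>
      (∀ l ∈ L, MvPolynomial.aeval x.2 l.1 + x.1 * MvPolynomial.aeval x.2 l.2 = 0) ∧
        MvPolynomial.aeval x.2 f.1 + x.1 * MvPolynomial.aeval x.2 f.2 = 0) := by
  classical
  let θ : MvPolynomial (Fin m) k × MvPolynomial (Fin m) k → MvPolynomial (Fin m) (Polynomial k) :=
    fun l => MvPolynomial.map Polynomial.C l.1 +
      MvPolynomial.C Polynomial.X * MvPolynomial.map Polynomial.C l.2
  have h0 : Algebra.FiniteType ℤ (Polynomial k) := ftZ (k := k) inferInstance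
  have h1 := hfam (Polynomial k) W h0 dim_polynomial_le hW m (L.image θ) (θ f) (by
    intro l hl
    obtain ⟨l', hl', rfl⟩ := Finset.mem_image.1 hl
    exact td_pencil _ _ 1 (hL l' hl').1 (hL l' hl').2) (td_pencil _ _ 2 hf.1 hf.2)
  obtain ⟨a, ha⟩ := rep_family (insert (θ f) (L.image θ : Set (MvPolynomial (Fin m) (Polynomial k))))
  have h2 : Algebra.FiniteType k (MvPolynomial (Fin m) (Polynomial k)) :=
    Algebra.FiniteType.trans (S := Polynomial k) inferInstance inferInstance
  have h3 : Algebra.FiniteType k (MvPolynomial (Fin m) (Polynomial k) ⧸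
      Ideal.span (insert (θ f) (L.image θ : Set (MvPolynomial (Fin m) (Polynomial k))))) :=
    Algebra.FiniteType.of_surjective (Ideal.Quotient.mkₐ k _) Ideal.Quotient.mk_surjective
  have h4 : Good (MW S W k) ((line (k := k)).prod (Aff (Fin m))) (fun V _ _ x =>
      ∀ g ∈ (insert (θ f) (L.image θ : Set (MvPolynomial (Fin m) (Polynomial k)))),
        ev x.1 x.2 g = 0) := ⟨_, _, _, a, ha, h3, h1⟩
  refine h4.congr (fun _ _ _ x => ?_)
  rw [Set.forall_mem_insert]
  have h5 : ∀ l, ev x.1 x.2 (θ l) =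
      MvPolynomial.aeval x.2 l.1 + x.1 * MvPolynomial.aeval x.2 l.2 :=
    fun l => ev_pencil x.1 x.2 l.1 l.2
  rw [h5]
  constructor
  · rintro ⟨h6, h7⟩
    refine ⟨fun l hl => ?_, h6⟩
    rw [← h5]
    exact h7 _ (by rw [Finset.mem_coe]; exact Finset.mem_image_of_mem θ hl)
  · rintro ⟨h6, h7⟩
    refine ⟨h7, fun g hg => ?_⟩
    obtain ⟨l, hl, rfl⟩ := Finset.mem_image.1 (Finset.mem_coe.1 hg)
    rw [h5]
    exact h6 l hl

/-- systems of equations over `k` -/
theorem good_vs_iff (hS : SOps S) {m : ℕ} (T : Set (MvPolynomial (Fin m) k)) :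
    Good (MW S W k) (Aff (Fin m)) (VS T) ↔ S (Ten W (MvPolynomial (Fin m) k ⧸ Ideal.span T)) := by
  obtain ⟨a, ha⟩ := rep_vs T
  constructor
  · intro h
    exact (good_mem hS h ha).2
  · intro h
    exact ⟨_, _, _, a, ha, Algebra.FiniteType.of_surjective (Ideal.Quotient.mkₐ k _)
      Ideal.Quotient.mk_surjective, h⟩

theorem good_quadric [Finite k] (hS : SOps S) (hW : S W) (hfam : Fam S) {m : ℕ}
    (L : Finset (MvPolynomial (Fin m) k)) (hL : ∀ l ∈ L, l.totalDegree ≤ 1)
    (f : MvPolynomial (Fin m) k) (hf : f.totalDegree ≤ 2) :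
    Good (MW S W k) (Aff (Fin m)) (fun V _ _ x =>
      (∀ l ∈ L, MvPolynomial.aeval x l = 0) ∧ MvPolynomial.aeval x f = 0) := by
  have h0 : Algebra.FiniteType ℤ k := inferInstance
  have h1 := hfam k W h0 (by rw [ringKrullDim_eq_zero_of_field]; exact zero_le_one) hW m L f hL hf
  refine ((good_vs_iff hS _).2 h1).congr (fun _ _ _ x => ?_)
  rw [VS, Set.forall_mem_insert]
  exact and_comm

end Pool.Agent.Helper36.TQ
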