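import Mathlib

/-!
# Common isotropic vectors of two quadratic forms
-/

namespace Pool.Agent.Helper36.TQ

open Matrix Polynomial

section

variable {R : Type} [CommRing R] {n : Type} [Fintype n]

/-- values of quadratic forms -/
def qf (A : Matrix n n R) (x : n → R) : R := x ⬝ᵥ A *ᵥ x

/-- values of the polar form -/
def bf (A : Matrix n n R) (x y : n → R) : R := x ⬝ᵥ A *ᵥ y + y ⬝ᵥ A *ᵥ x

theorem qf_comb (A : Matrix n n R) (a b : R) (x y : n → R) :
    qf A (a • x + b • y) = a ^ 2 * qf A x + a * b * bf A x y + b ^ 2 * qf A y := by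
  simp only [qf, bf, mulVec_add, mulVec_smul, dotProduct_add, add_dotProduct, smul_dotProduct,
    dotProduct_smul, smul_eq_mul]
  ring

theorem bf_comb_right (A : Matrix n n R) (a b : R) (e x y : n → R) :
    bf A e (a • x + b • y) = a * bf A e x + b * bf A e y := by
  simp only [bf, mulVec_add, mulVec_smul, dotProduct_add, add_dotProduct, smul_dotProduct,
    dotProduct_smul, smul_eq_mul]
  ring

theorem bf_comm (A : Matrix n n R) (x y : n → R) : bf A x y = bf A y x := by
  simp only [bf]
  ring

end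

section

variable {K : Type} [Field K] [IsAlgClosed K] {n : Type} [Fintype n]

theorem exists_root_quad (a b c : K) : ∃ s t : K, (s ≠ 0 ∨ t ≠ 0) ∧
    s ^ 2 * a + s * t * b + t ^ 2 * c = 0 := by
  by_cases hc : c = 0
  · exact ⟨0, 1, Or.inr one_ne_zero, by simp [hc]⟩
  · have h : (C a + C b * X + C c * X ^ 2 : K[X]).natDegree = 2 := by
      compute_degree!
    obtain ⟨t, ht⟩ := IsAlgClosed.exists_root (C a + C b * X + C c * X ^ 2 : K[X]) (by
      intro h0
      have := natDegree_eq_zero_iff_degree_le_zero.2 h0.le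
      omega)
    refine ⟨1, t, Or.inl one_ne_zero, ?_⟩
    simp only [IsRoot.def, eval_add, eval_C, eval_mul, eval_X, eval_pow] at ht
    linear_combination ht

theorem exists_root_quartic (c0 c1 c2 c3 c4 : K) : ∃ s t : K, (s ≠ 0 ∨ t ≠ 0) ∧
    c0 * s ^ 4 + c1 * s ^ 3 * t + c2 * s ^ 2 * t ^ 2 + c3 * s * t ^ 3 + c4 * t ^ 4 = 0 := by
  by_cases hc : c4 = 0
  · exact ⟨0, 1, Or.inr one_ne_zero, by simp [hc]⟩
  · have h : (C c0 + C c1 * X + C c2 * X ^ 2 + C c3 * X ^ 3 + C c4 * X ^ 4 : K[X]).natDegree = 4 := by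
      compute_degree!
    obtain ⟨t, ht⟩ := IsAlgClosed.exists_root
      (C c0 + C c1 * X + C c2 * X ^ 2 + C c3 * X ^ 3 + C c4 * X ^ 4 : K[X]) (by
      intro h0
      have := natDegree_eq_zero_iff_degree_le_zero.2 h0.le
      omega)
    refine ⟨1, t, Or.inl one_ne_zero, ?_⟩
    simp only [IsRoot.def, eval_add, eval_C, eval_mul, eval_X, eval_pow] at ht
    linear_combination ht

/-- an isotropic vector in a plane -/
theorem exists_plane (A : Matrix n n K) (x y : n → K) : ∃ s t : K, (s ≠ 0 ∨ t ≠ 0) ∧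
    qf A (s • x + t • y) = 0 := by
  obtain ⟨s, t, h, h1⟩ := exists_root_quad (qf A x) (bf A x y) (qf A y)
  exact ⟨s, t, h, by rw [qf_comb, h1]⟩

theorem exists_common (A B : Matrix n n K) (x y z : n → K)
    (hxyz : ∀ a b c : K, a • x + b • y + c • z = 0 → a = 0 ∧ b = 0 ∧ c = 0) :
    ∃ e : n → K, e ≠ 0 ∧ qf A e = 0 ∧ qf B e = 0 := by
  -- an isotropic vector of `A` together with two further vectors
  obtain ⟨e, u, w, hind, he⟩ : ∃ e u w : n → K,
      (∀ a b c : K, a • e + b • u + c • w = 0 → a = 0 ∧ b = 0 ∧ c = 0) ∧ qf A e = 0 := by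
    obtain ⟨s, t, hst, h1⟩ := exists_plane A x y
    by_cases hs : s = 0
    · have ht : t ≠ 0 := hst.resolve_left (by simpa using hs)
      refine ⟨s • x + t • y, x, z, ?_, h1⟩
      intro a b c h
      have h2 := hxyz (a * s + b) (a * t) c (by
        rw [← h]
        module)
      obtain ⟨h3, h4, h5⟩ := h2
      have h6 : a = 0 := (mul_eq_zero.1 h4).resolve_right ht
      refine ⟨h6, ?_, h5⟩
      rw [h6] at h3
      simpa using h3
    · refine ⟨s • x + t • y, y, z, ?_, h1⟩
      intro a b c h
      have h2 := hxyz (a * s) (a * t + b) c (by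
        rw [← h]
        module)
      obtain ⟨h3, h4, h5⟩ := h2
      have h6 : a = 0 := (mul_eq_zero.1 h3).resolve_right hs
      refine ⟨h6, ?_, h5⟩
      rw [h6] at h4
      simpa using h4
  set a := bf A e u with ha
  set b := bf A e w with hb
  set a' := bf B e u with ha'
  set b' := bf B e w with hb'
  set p := qf A u with hp
  set q := bf A u w with hq
  set r := qf A w with hr
  set p' := qf B u with hp'
  set q' := bf B u w with hq'
  set r' := qf B w with hr'
  set E := qf B e with hE
  obtain ⟨s, t, hst, hroot⟩ := exists_root_quartic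
    (a ^ 2 * p' - a * p * a' + p ^ 2 * E)
    (a ^ 2 * q' + 2 * a * b * p' - (a * p * b' + a * q * a' + b * p * a') + 2 * p * q * E)
    (a ^ 2 * r' + 2 * a * b * q' + b ^ 2 * p' - (a * q * b' + a * r * a' + b * p * b' + b * q * a')
      + (q ^ 2 + 2 * p * r) * E)
    (2 * a * b * r' + b ^ 2 * q' - (a * r * b' + b * q * b' + b * r * a') + 2 * q * r * E)
    (b ^ 2 * r' - b * r * b' + r ^ 2 * E)
  set z := s • u + t • w with hz
  have h1 : bf A e z = s * a + t * b := bf_comb_right A s t e u w
  have h2 : bf B e z = s * a' + t * b' := bf_comb_right B s t e u w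
  have h3 : qf A z = s ^ 2 * p + s * t * q + t ^ 2 * r := qf_comb A s t u w
  have h4 : qf B z = s ^ 2 * p' + s * t * q' + t ^ 2 * r' := qf_comb B s t u w
  -- the second point of the line through `e` and `z`
  by_cases hv : bf A e z = 0 ∧ qf A z = 0
  · obtain ⟨c, d, hcd, h5⟩ := exists_plane B e z
    refine ⟨c • e + d • z, ?_, ?_, h5⟩
    · intro h6
      have h7 := hind c (d * s) (d * t) (by
        rw [← h6, hz]
        module)
      obtain ⟨h8, h9, h10⟩ := h7
      rcases hcd with hc | hd
      · exact hc h8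
      · rcases hst with hs | ht
        · exact (mul_ne_zero hd hs) h9
        · exact (mul_ne_zero hd ht) h10
    · rw [qf_comb, he, hv.1, hv.2]
      ring
  · refine ⟨(-qf A z) • e + (bf A e z) • z, ?_, ?_, ?_⟩
    · intro h6
      have h7 := hind (-qf A z) (bf A e z * s) (bf A e z * t) (by
        rw [← h6, hz]
        module)
      obtain ⟨h8, h9, h10⟩ := h7
      apply hv
      refine ⟨?_, neg_eq_zero.1 h8⟩
      rcases hst with hs | ht
      · exact (mul_eq_zero.1 h9).resolve_right hs
      · exact (mul_eq_zero.1 h10).resolve_right ht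
    · rw [qf_comb, he]
      ring
    · rw [qf_comb, h1, h2, h3, h4, ← hE]
      linear_combination hroot

end

theorem exists_common_fin {K : Type} [Field K] [IsAlgClosed K] {m : ℕ} (hm : 3 ≤ m)
    (A B : Matrix (Fin m) (Fin m) K) : ∃ e : Fin m → K, e ≠ 0 ∧ qf A e = 0 ∧ qf B e = 0 := by
  let i0 : Fin m := ⟨0, by omega⟩
  let i1 : Fin m := ⟨1, by omega⟩
  let i2 : Fin m := ⟨2, by omega⟩
  have h01 : i0 ≠ i1 := by simp [i0, i1]
  have h02 : i0 ≠ i2 := by simp [i0, i2]
  have h12 : i1 ≠ i2 := by simp [i1, i2]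
  apply exists_common A B (Pi.single i0 1) (Pi.single i1 1) (Pi.single i2 1)
  intro a b c h
  have h0 := congrFun h i0
  have h1 := congrFun h i1
  have h2 := congrFun h i2
  simp only [Pi.add_apply, Pi.smul_apply, smul_eq_mul, Pi.single_eq_same,
    Pi.single_eq_of_ne h01, Pi.single_eq_of_ne h02, Pi.single_eq_of_ne h12,
    Pi.single_eq_of_ne h01.symm, Pi.single_eq_of_ne h02.symm, Pi.single_eq_of_ne h12.symm,
    mul_one, mul_zero, add_zero, zero_add, Pi.zero_apply] at h0 h1 h2
  exact ⟨h0, h1, h2⟩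

/-- a common isotropic vector over a finite extension -/
theorem exists_common_ext {k : Type} [Field k] {m : ℕ} (hm : 3 ≤ m)
    (A B : Matrix (Fin m) (Fin m) k) : ∃ (k' : Type) (_ : Field k') (_ : Algebra k k'),
      FiniteDimensional k k' ∧ ∃ e : Fin m → k', e ≠ 0 ∧
        qf (A.map (algebraMap k k')) e = 0 ∧ qf (B.map (algebraMap k k')) e = 0 := by
  let K := AlgebraicClosure k
  obtain ⟨e, he, hA, hB⟩ := exists_common_fin hm (A.map (algebraMap k K)) (B.map (algebraMap k K))
  let k' := IntermediateField.adjoin k (Set.range e)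
  have hfin : FiniteDimensional k k' := IntermediateField.finiteDimensional_adjoin
    (fun x _ => (Algebra.IsAlgebraic.isAlgebraic x).isIntegral)
  let e' : Fin m → k' := fun i => ⟨e i, IntermediateField.subset_adjoin k _ ⟨i, rfl⟩⟩
  have key : ∀ C : Matrix (Fin m) (Fin m) k,
      algebraMap k' K (qf (C.map (algebraMap k k')) e') = qf (C.map (algebraMap k K)) e := by
    intro C
    simp only [qf, dotProduct, mulVec, map_sum, map_mul, Matrix.map_apply]
    rfl
  refine ⟨k', inferInstance, inferInstance, hfin, e', ?_, ?_, ?_⟩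
  · intro h
    apply he
    funext i
    have := congrFun h i
    exact congrArg Subtype.val this
  · apply (algebraMap k' K).injective
    rw [key, hA, map_zero]
  · apply (algebraMap k' K).injective
    rw [key, hB, map_zero]

end Pool.Agent.Helper36.TQ
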