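import Pool.Agent.Helper36.TQ.Step
import Pool.Agent.Helper36.TQ.Ext
import Pool.Agent.Helper36.TQ.Lin

/-!
# Intersections of two quadrics over finite fields
-/

namespace Pool.Agent.Helper36.TQ

open TensorProduct MvPolynomial
open Pool.Agent.Helper62.RO
open Pool.Agent.Helper87.CC

variable {S : ∀ (A : Type) [CommRing A], Prop}

/-- curves -/
theorem s_curve (hS : SOps S) {W : Type} [CommRing W] (hW : S W) {A : Type} [CommRing A]
    (hA : Algebra.FiniteType ℤ A) (h : ringKrullDim A ≤ 1) : S (Ten W A) := by
  have h1 : CurveProd A := .iso _ _ (.tensor ℤ A .base hA h)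
    (Algebra.TensorProduct.lid ℤ A).toRingEquiv
  obtain ⟨e⟩ := ten_comm A W
  exact hS.iso _ _ e (hS.curve A W h1 hW)

theorem s_trivial (hS : SOps S) {W : Type} [CommRing W] {A : Type} [CommRing A]
    (h : Subsingleton A) : S (Ten W A) := by
  apply hS.zero
  have h1 : (1 : Ten W A) = 0 := by
    rw [← map_one (tinr W A), ← map_zero (tinr W A)]
    exact congrArg _ (Subsingleton.elim _ _)
  exact subsingleton_of_zero_eq_one h1.symm

/-- the statement for fixed data -/
def Two (S : ∀ (A : Type) [CommRing A], Prop) (W : Type) [CommRing W] (m : ℕ) (k : Type)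
    [Field k] : Prop :=
  ∀ (L : Finset (MvPolynomial (Fin m) k)) (f g : MvPolynomial (Fin m) k),
    (∀ l ∈ L, l.totalDegree ≤ 1) → f.totalDegree ≤ 2 → g.totalDegree ≤ 2 →
    S (Ten W (MvPolynomial (Fin m) k ⧸
      Ideal.span (insert f (insert g (L : Set (MvPolynomial (Fin m) k))))))

/-- elimination of a variable by a linear equation -/
theorem elim [DecidableEq ℕ] (hS : SOps S) {W : Type} [CommRing W] {m : ℕ} {k : Type} [Field k]
    (ih : Two S W m k) (L : Finset (MvPolynomial (Fin (m + 1)) k))
    (f g : MvPolynomial (Fin (m + 1)) k) (hL : ∀ l ∈ L, l.totalDegree ≤ 1)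
    (hf : f.totalDegree ≤ 2) (hg : g.totalDegree ≤ 2) (b : Fin (m + 1) → k) (c : k)
    (hb : lp b c ∈ L) (j : Fin (m + 1)) (hj : b j ≠ 0) :
    S (Ten W (MvPolynomial (Fin (m + 1)) k ⧸
      Ideal.span (insert f (insert g (L : Set (MvPolynomial (Fin (m + 1)) k)))))) := by
  classical
  let ψ : MvPolynomial (Fin m) k :=
    C (-(b j)⁻¹) * ((∑ i, C (b (j.succAbove i)) * X i) + C c)
  let φ : Fin (m + 1) → MvPolynomial (Fin m) k :=
    Fin.insertNth (α := fun _ => MvPolynomial (Fin m) k) j ψ X
  have hψ : ψ.totalDegree ≤ 1 := by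
    refine (totalDegree_mul _ _).trans ?_
    rw [totalDegree_C, zero_add]
    refine (totalDegree_add _ _).trans (max_le ?_ ?_)
    · apply totalDegree_finsetSum_le
      intro i _
      refine (totalDegree_mul _ _).trans ?_
      rw [totalDegree_C, zero_add]
      exact (totalDegree_X i).le
    · rw [totalDegree_C]
      exact zero_le_one
  have hφ : ∀ i, (φ i).totalDegree ≤ 1 := by
    intro i
    refine Fin.succAboveCases j ?_ (fun l => ?_) i
    · simpa [φ] using hψ
    · simp only [φ, Fin.insertNth_apply_succAbove]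
      exact (totalDegree_X l).le
  have h1 := ih (L.image (bind₁ φ)) (bind₁ φ f) (bind₁ φ g) (by
    intro l hl
    obtain ⟨l', hl', rfl⟩ := Finset.mem_image.1 hl
    exact (td_bind φ hφ l').trans (hL l' hl')) ((td_bind φ hφ f).trans hf)
    ((td_bind φ hφ g).trans hg)
  have h2 := (good_vs_iff (k := k) (W := W) hS _).2 h1
  apply (good_vs_iff (k := k) (W := W) hS _).1
  have hev : ∀ (V : Type) [CommRing V] [Algebra k V] (y : Fin m → V)
      (P : MvPolynomial (Fin (m + 1)) k),
      aeval y (bind₁ φ P) = aeval (fun i => aeval y (φ i)) P := by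
    intro V _ _ y P
    rw [aeval_bind₁]
  have hset : ∀ (V : Type) [CommRing V] [Algebra k V] (y : Fin m → V),
      VS (insert (bind₁ φ f) (insert (bind₁ φ g)
        (↑(L.image (bind₁ φ)) : Set (MvPolynomial (Fin m) k)))) V y ↔
      VS (insert f (insert g (L : Set (MvPolynomial (Fin (m + 1)) k)))) V
        (fun i => aeval y (φ i)) := by
    intro V _ _ y
    simp only [VS, Set.forall_mem_insert, Finset.mem_coe, Finset.forall_mem_image, hev]
  have hj1 : ∀ (V : Type) [CommRing V] [Algebra k V] (y : Fin m → V),
      aeval y (φ j) = algebraMap k V (-(b j)⁻¹) *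
        ((∑ i, algebraMap k V (b (j.succAbove i)) * y i) + algebraMap k V c) := by
    intro V _ _ y
    simp only [φ, Fin.insertNth_apply_same, ψ, map_mul, map_add, map_sum, aeval_C, aeval_X]
  have hs1 : ∀ (V : Type) [CommRing V] [Algebra k V] (y : Fin m → V) (i : Fin m),
      aeval y (φ (j.succAbove i)) = y i := by
    intro V _ _ y i
    simp only [φ, Fin.insertNth_apply_succAbove, aeval_X]
  refine h2.iso (E' := Aff (Fin (m + 1)))
    (fun V _ _ (y : (Aff (k := k) (Fin m)).obj V) => fun i => aeval y (φ i))
    (fun V _ _ (x : (Aff (k := k) (Fin (m + 1))).obj V) => fun i => x (j.succAbove i)) ?_ ?_ ?_ ?_ ?_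
  · intro V _ _ y hy
    exact (hset V y).1 hy
  · intro V _ _ x hx
    rw [hset]
    have h3 : (fun i => aeval (fun i => x (j.succAbove i)) (φ i)) = x := by
      funext i
      refine Fin.succAboveCases j ?_ (fun l => ?_) i
      · have h4 := hx (lp b c) (by simp [hb])
        rw [aeval_lp, Fin.sum_univ_succAbove _ j] at h4
        rw [hj1]
        have h5 : algebraMap k V (b j) * algebraMap k V (b j)⁻¹ = 1 := by
          rw [← map_mul, mul_inv_cancel₀ hj, map_one]
        rw [map_neg]
        linear_combination (-algebraMap k V (b j)⁻¹) * h4 + x j * h5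
      · exact hs1 V _ l
    rw [h3]
    exact hx
  · intro V _ _ y hy
    funext i
    exact hs1 V y i
  · intro V _ _ x hx
    funext i
    refine Fin.succAboveCases j ?_ (fun l => ?_) i
    · have h4 := hx (lp b c) (by simp [hb])
      rw [aeval_lp, Fin.sum_univ_succAbove _ j] at h4
      rw [hj1]
      have h5 : algebraMap k V (b j) * algebraMap k V (b j)⁻¹ = 1 := by
        rw [← map_mul, mul_inv_cancel₀ hj, map_one]
      rw [map_neg]
      linear_combination (-algebraMap k V (b j)⁻¹) * h4 + x j * h5
    · exact hs1 V _ l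
  · intro V V' _ _ _ _ F y hy
    funext i
    exact MvPolynomial.comp_aeval_apply (f := y) F (φ i)

/-- few variables -/
theorem few (hS : SOps S) (hfam : Fam S) {W : Type} [CommRing W] (hW : S W) {m : ℕ} (hm : m ≤ 2)
    {k : Type} [Field k] [Finite k] (f g : MvPolynomial (Fin m) k) :
    S (Ten W (MvPolynomial (Fin m) k ⧸ Ideal.span {f, g})) := by
  by_cases h0 : f = 0 ∧ g = 0
  · obtain ⟨rfl, rfl⟩ := h0
    have h1 := hfam k W inferInstance
      (by rw [ringKrullDim_eq_zero_of_field]; exact zero_le_one) hW m ∅ 0 (by simp) (by simp)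
    have h2 : (insert (0 : MvPolynomial (Fin m) k)
        (((∅ : Finset (MvPolynomial (Fin m) k))) : Set (MvPolynomial (Fin m) k))) = {0, 0} := by
      simp
    rw [h2] at h1
    exact h1
  · have hft : Algebra.FiniteType k (MvPolynomial (Fin m) k ⧸ Ideal.span {f, g}) :=
      Algebra.FiniteType.of_surjective (Ideal.Quotient.mkₐ k _) Ideal.Quotient.mk_surjective
    apply s_curve hS hW (ftZ (k := k) hft)
    rcases Nat.lt_or_ge m 2 with hm1 | hm1
    · refine (ringKrullDim_quotient_le _).trans ?_
      rw [MvPolynomial.ringKrullDim_of_isNoetherianRing, ringKrullDim_eq_zero_of_field, zero_add]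
      have h3 : Nat.card (Fin m) ≤ 1 := by
        rw [Nat.card_fin]
        omega
      exact_mod_cast h3
    · have h3 : m = 2 := by omega
      subst h3
      have key : ∀ h : MvPolynomial (Fin 2) k, h ≠ 0 → h ∈ ({f, g} : Set (MvPolynomial (Fin 2) k)) →
          ringKrullDim (MvPolynomial (Fin 2) k ⧸ Ideal.span {f, g}) ≤ 1 := by
        intro h hh hmem
        refine le_trans ?_ (Pool.Agent.Helper62.TS.dim_plane_curve_le hh)
        have h4 : Ideal.span {h} ≤ Ideal.span {f, g} := by
          rw [Ideal.span_singleton_le_iff_mem]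
          exact Ideal.subset_span hmem
        exact ringKrullDim_le_of_surjective (Ideal.Quotient.factor h4)
          (Ideal.Quotient.factor_surjective h4)
      rcases not_and_or.1 h0 with h | h
      · exact key f h (by simp)
      · exact key g h (by simp)

/-- many variables -/
theorem many (hS : SOps S) (hfam : Fam S) {W : Type} [CommRing W] (hW : S W) {m : ℕ} (hm : 2 ≤ m)
    (ih : ∀ (k : Type) [Field k] [Finite k], Two S W m k)
    {k : Type} [Field k] [Finite k] (f g : MvPolynomial (Fin (m + 1)) k)
    (hf : f.totalDegree ≤ 2) (hg : g.totalDegree ≤ 2) :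
    S (Ten W (MvPolynomial (Fin (m + 1)) k ⧸ Ideal.span {f, g})) := by
  classical
  obtain ⟨A, b, c, rfl⟩ := exists_qp f hf
  obtain ⟨A', b', c', rfl⟩ := exists_qp g hg
  obtain ⟨k', _, _, hfin, e, he, heA, heA'⟩ := exists_common_ext (by omega : 3 ≤ m + 1) A A'
  have : Finite k' := Module.finite_of_finite k
  apply descend (k' := k') hS (hS.ft W hW)
  have hmap : ∀ (A : Matrix (Fin (m + 1)) (Fin (m + 1)) k) (b : Fin (m + 1) → k) (c : k),
      MvPolynomial.map (algebraMap k k') (qp A b c) =
        qp (A.map (algebraMap k k')) (fun i => algebraMap k k' (b i)) (algebraMap k k' c) := by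
    intro A b c
    rw [qp, qp, map_add, map_add, map_qf, map_dot]
    simp only [map_C, map_X]
    congr 3
    rw [Matrix.map_map, Matrix.map_map]
    congr 1
    funext r
    simp
  rw [Set.image_pair, hmap, hmap]
  obtain ⟨j, hj⟩ := Function.ne_iff.1 he
  have hj : e j ≠ 0 := hj
  obtain ⟨b1, c1, hb1, hc1, h1⟩ := exists_split (A.map (algebraMap k k'))
    (fun i => algebraMap k k' (b i)) (algebraMap k k' c) e heA j
  obtain ⟨b2, c2, hb2, hc2, h2⟩ := exists_split (A'.map (algebraMap k k'))
    (fun i => algebraMap k k' (b' i)) (algebraMap k k' c') e heA' j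
  set F := qp (A.map (algebraMap k k')) (fun i => algebraMap k k' (b i)) (algebraMap k k' c)
  set G := qp (A'.map (algebraMap k k')) (fun i => algebraMap k k' (b' i)) (algebraMap k k' c')
  have h3 := ih k' {b1, b2} c1 c2 (by
    intro l hl
    rw [Finset.mem_insert, Finset.mem_singleton] at hl
    rcases hl with rfl | rfl
    · exact hb1
    · exact hb2) hc1 hc2
  have h4 := (good_vs_iff (k := k') (W := W) hS _).2 h3
  have h5 := good_step (k := k') hS hW hfam b1 b2 c1 c2 hb1 hb2 hc1 hc2 (h4.congr (fun V _ _ x => by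
    simp only [VS, Set.forall_mem_insert, Finset.coe_insert, Finset.coe_singleton,
      Set.mem_singleton_iff, forall_eq]
    tauto))
  apply (good_vs_iff (k := k') (W := W) hS _).1
  have hinv : ∀ (V : Type) [CommRing V] [Algebra k' V],
      algebraMap k' V (e j) * algebraMap k' V (e j)⁻¹ = 1 := by
    intro V _ _
    rw [← map_mul, mul_inv_cancel₀ hj, map_one]
  let hom : ∀ (V : Type) [CommRing V] [Algebra k' V],
      ((line (k := k')).prod (Aff (Fin m))).obj V → (Aff (k := k') (Fin (m + 1))).obj V :=
    fun V _ _ x => fun i => (Fin.insertNth (α := fun _ => V) j 0 x.2 : Fin (m + 1) → V) i +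
      x.1 * algebraMap k' V (e i)
  let inv : ∀ (V : Type) [CommRing V] [Algebra k' V],
      (Aff (k := k') (Fin (m + 1))).obj V → ((line (k := k')).prod (Aff (Fin m))).obj V :=
    fun V _ _ x => (x j * algebraMap k' V (e j)⁻¹,
      fun i => x (j.succAbove i) - x j * algebraMap k' V (e j)⁻¹ *
        algebraMap k' V (e (j.succAbove i)))
  have hinv2 : ∀ (V : Type) [CommRing V] [Algebra k' V] (x : (Aff (k := k') (Fin (m + 1))).obj V),
      hom V (inv V x) = x := by
    intro V _ _ x
    funext i
    refine Fin.succAboveCases j ?_ (fun l => ?_) i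
    · simp only [hom, inv, Fin.insertNth_apply_same]
      linear_combination x j * hinv V
    · simp only [hom, inv, Fin.insertNth_apply_succAbove]
      ring
  refine h5.iso (E' := Aff (Fin (m + 1))) hom inv ?_ ?_ ?_ ?_ ?_
  · rintro V _ _ x ⟨h6, h7⟩
    simp only [VS, Set.forall_mem_insert, Set.mem_singleton_iff, forall_eq]
    exact ⟨(h1 V x.2 x.1).trans h6, (h2 V x.2 x.1).trans h7⟩
  · intro V _ _ x hx
    simp only [VS, Set.forall_mem_insert, Set.mem_singleton_iff, forall_eq] at hx
    have h6 := h1 V (inv V x).2 (inv V x).1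
    have h7 := h2 V (inv V x).2 (inv V x).1
    have h8 : (fun i => (Fin.insertNth j 0 (inv V x).2 : Fin (m + 1) → V) i +
      (inv V x).1 * algebraMap k' V (e i)) = x := hinv2 V x
    rw [h8] at h6 h7
    exact ⟨h6.symm.trans hx.1, h7.symm.trans hx.2⟩
  · rintro V _ _ ⟨v, y⟩ -
    have h9 : v * algebraMap k' V (e j) * algebraMap k' V (e j)⁻¹ = v := by
      rw [mul_assoc, hinv, mul_one]
    refine Prod.ext ?_ ?_
    · simp only [hom, inv, Fin.insertNth_apply_same, zero_add]
      exact h9
    · funext i
      simp only [hom, inv, Fin.insertNth_apply_same, Fin.insertNth_apply_succAbove, zero_add]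
      rw [h9]
      ring
  · intro V _ _ x _
    exact hinv2 V x
  · rintro V V' _ _ _ _ φ ⟨v, y⟩ -
    funext i
    refine Fin.succAboveCases j ?_ (fun l => ?_) i
    · change φ ((Fin.insertNth (α := fun _ => V) j 0 y : Fin (m + 1) → V) j +
        v * algebraMap k' V (e j)) = (Fin.insertNth (α := fun _ => V') j 0 (fun i => φ (y i)) :
          Fin (m + 1) → V') j + φ v * algebraMap k' V' (e j)
      rw [Fin.insertNth_apply_same, Fin.insertNth_apply_same, map_add, map_zero, map_mul,
        φ.commutes]
    · change φ ((Fin.insertNth (α := fun _ => V) j 0 y : Fin (m + 1) → V) (j.succAbove l) +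
        v * algebraMap k' V (e (j.succAbove l))) =
        (Fin.insertNth (α := fun _ => V') j 0 (fun i => φ (y i)) :
          Fin (m + 1) → V') (j.succAbove l) + φ v * algebraMap k' V' (e (j.succAbove l))
      rw [Fin.insertNth_apply_succAbove, Fin.insertNth_apply_succAbove, map_add, map_mul,
        φ.commutes]

/-- **Intersections of two quadrics and linear subspaces over finite fields.** -/
theorem two_quadrics (hS : SOps S) (hfam : Fam S) (W : Type) [CommRing W] (hW : S W) (m : ℕ) :
    ∀ (k : Type) [Field k] [Finite k], Two S W m k := by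
  classical
  induction m with
  | zero =>
    intro k _ _ L f g hL hf hg
    have hft : Algebra.FiniteType k (MvPolynomial (Fin 0) k ⧸
        Ideal.span (insert f (insert g (L : Set (MvPolynomial (Fin 0) k))))) :=
      Algebra.FiniteType.of_surjective (Ideal.Quotient.mkₐ k _) Ideal.Quotient.mk_surjective
    apply s_curve hS hW (ftZ (k := k) hft)
    refine (ringKrullDim_quotient_le _).trans ?_
    rw [MvPolynomial.ringKrullDim_of_isNoetherianRing, ringKrullDim_eq_zero_of_field, zero_add]
    simp
  | succ m ih =>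
    intro k _ _ L f g hL hf hg
    by_cases h1 : ∃ (b : Fin (m + 1) → k) (c : k), lp b c ∈ L ∧ ∃ j, b j ≠ 0
    · obtain ⟨b, c, h2, j, hj⟩ := h1
      exact elim hS (ih k) L f g hL hf hg b c h2 j hj
    · have h2 : ∀ l ∈ L, ∃ c : k, l = C c := by
        intro l hl
        obtain ⟨b, c, rfl⟩ := exists_lp l (hL l hl)
        have h3 : b = 0 := by
          by_contra h3
          obtain ⟨j, hj⟩ := Function.ne_iff.1 h3
          exact h1 ⟨b, c, hl, j, hj⟩
        exact ⟨c, by rw [h3, lp_const]⟩
      by_cases h3 : ∃ c : k, C c ∈ L ∧ c ≠ 0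
      · obtain ⟨c, hc, hc0⟩ := h3
        apply s_trivial hS
        rw [Ideal.Quotient.subsingleton_iff]
        apply Ideal.eq_top_of_isUnit_mem _ (x := C c)
        · exact Ideal.subset_span (by simp [hc])
        · exact (isUnit_iff_ne_zero.2 hc0).map (C : k →+* MvPolynomial (Fin (m + 1)) k)
      · have h4 : ∀ l ∈ L, l = 0 := by
          intro l hl
          obtain ⟨c, rfl⟩ := h2 l hl
          by_contra h5
          exact h3 ⟨c, hl, fun h6 => h5 (by rw [h6, map_zero])⟩
        have h5 : Ideal.span (insert f (insert g (L : Set (MvPolynomial (Fin (m + 1)) k)))) =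
            Ideal.span {f, g} := by
          apply le_antisymm
          · rw [Ideal.span_le]
            rintro x (rfl | rfl | hx)
            · exact Ideal.subset_span (by simp)
            · exact Ideal.subset_span (by simp)
            · rw [h4 x (Finset.mem_coe.1 hx)]
              exact Ideal.zero_mem _
          · apply Ideal.span_mono
            rintro x (rfl | hx)
            · exact Set.mem_insert _ _
            · rw [Set.mem_singleton_iff] at hx
              rw [hx]
              exact Set.mem_insert_of_mem _ (Set.mem_insert _ _)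
        rw [h5]
        rcases Nat.lt_or_ge m 2 with hm | hm
        · exact few hS hfam hW (by omega) f g
        · exact many hS hfam hW hm ih f g hf hg

end Pool.Agent.Helper36.TQ
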