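import Pool.Agent.Helper36.TQ.Family

/-!
# The main step: two quadrics with a common isotropic direction
-/

namespace Pool.Agent.Helper36.TQ

open TensorProduct MvPolynomial
open Pool.Agent.Helper62.RO
open Pool.Agent.Helper87.CC

variable {S : ∀ (A : Type) [CommRing A], Prop} {W : Type} [CommRing W] {k : Type} [Field k]

/-- the value of a polynomial in the second coordinates -/
noncomputable def cs {m : ℕ} (P : MvPolynomial (Fin m) k) : Crd ((line (k := k)).prod (Aff (Fin m)))
    where
  val V _ _ x := aeval x.2 P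
  nat {V V'} _ _ _ _ g x := by
    have h1 := MvPolynomial.comp_aeval_apply (f := x.2) g P
    exact h1

/-- the value of a polynomial -/
noncomputable def ca {m : ℕ} (P : MvPolynomial (Fin m) k) : Crd (Aff (k := k) (Fin m)) where
  val V _ _ x := aeval x P
  nat {V V'} _ _ _ _ g x := by
    have h1 := MvPolynomial.comp_aeval_apply (f := x) g P
    exact h1

/-- the value of a pencil -/
noncomputable def cp {m : ℕ} (P Q : MvPolynomial (Fin m) k) :
    Crd ((line (k := k)).prod (Aff (Fin m))) where
  val V _ _ x := aeval x.2 P + x.1 * aeval x.2 Q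
  nat {V V'} _ _ _ _ g x := by
    rw [map_add, map_mul]
    have h1 := MvPolynomial.comp_aeval_apply (f := x.2) g P
    have h2 := MvPolynomial.comp_aeval_apply (f := x.2) g Q
    rw [h1, h2]

theorem good_ft_all (m : ℕ) : Good (Ft k) ((line (k := k)).prod (Aff (Fin m)))
    (fun _ _ _ _ => True) := by
  have h1 := (rep_line (rep_aff (k := k) (Fin m)))
  have h2 : Algebra.FiniteType k (Polynomial (MvPolynomial (Fin m) k)) :=
    Algebra.FiniteType.trans (S := MvPolynomial (Fin m) k) inferInstance inferInstance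
  have h3 : Good (Ft k) ((Aff (k := k) (Fin m)).prod line) (fun _ _ _ _ => True) :=
    ⟨_, _, _, _, h1, h2⟩
  exact h3.iso (E' := (line (k := k)).prod (Aff (Fin m)))
    (fun V _ _ (x : ((Aff (k := k) (Fin m)).prod line).obj V) => (x.2, x.1))
    (fun V _ _ (x : ((line (k := k)).prod (Aff (Fin m))).obj V) => (x.2, x.1))
    (fun _ _ _ _ _ => trivial) (fun _ _ _ _ _ => trivial) (fun _ _ _ _ _ => rfl)
    (fun _ _ _ _ _ => rfl) (fun _ _ _ _ _ _ _ _ _ => rfl)

/-- **The main step.** -/
theorem good_step [Finite k] (hS : SOps S) (hW : S W) (hfam : Fam S) {m : ℕ}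
    (b1 b2 c1 c2 : MvPolynomial (Fin m) k) (hb1 : b1.totalDegree ≤ 1) (hb2 : b2.totalDegree ≤ 1)
    (hc1 : c1.totalDegree ≤ 2) (hc2 : c2.totalDegree ≤ 2)
    (hind : Good (MW S W k) (Aff (Fin m)) (fun V _ _ x =>
      (aeval x b1 = 0 ∧ aeval x b2 = 0) ∧ aeval x c1 = 0 ∧ aeval x c2 = 0)) :
    Good (MW S W k) ((line (k := k)).prod (Aff (Fin m))) (fun V _ _ x =>
      aeval x.2 c1 + x.1 * aeval x.2 b1 = 0 ∧ aeval x.2 c2 + x.1 * aeval x.2 b2 = 0) := by
  classical
  have hft0 : Good (Ft k) ((line (k := k)).prod (Aff (Fin m))) (fun V _ _ x =>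
      aeval x.2 c1 + x.1 * aeval x.2 b1 = 0 ∧ aeval x.2 c2 + x.1 * aeval x.2 b2 = 0) :=
    (((good_ft_all m).ft_cls1 (cp c1 b1)).ft_cls1 (cp c2 b2)).congr (fun _ _ _ x => by
      simp only [true_and]
      rfl)
  -- the part over the open set where `b2` is invertible
  have hopen : Good (MW S W k) ((line (k := k)).prod (Aff (Fin m))) (fun V _ _ x =>
      (aeval x.2 c1 + x.1 * aeval x.2 b1 = 0 ∧ aeval x.2 c2 + x.1 * aeval x.2 b2 = 0) ∧
        IsUnit ((cs b2).val V x)) := by
    have h1 := good_pencil (W := W) hW hfam {(b1, b2)} (by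
      intro l hl
      rw [Finset.mem_singleton] at hl
      subst hl
      exact ⟨hb1, hb2⟩) (c1, c2) ⟨hc1, hc2⟩
    have h2 := good_pencil (W := W) hW hfam {(b1, 0), (b2, 0)} (by
      intro l hl
      rw [Finset.mem_insert, Finset.mem_singleton] at hl
      rcases hl with rfl | rfl
      · exact ⟨hb1, by simp⟩
      · exact ⟨hb2, by simp⟩) (c1, c2) ⟨hc1, hc2⟩
    have h3 := good_opn hS h1 (cs b2) (h2.congr (fun V _ _ x => by
      simp only [Finset.mem_insert, Finset.mem_singleton, forall_eq_or_imp, forall_eq, map_zero,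
        mul_zero, add_zero]
      change _ ↔ _ ∧ aeval x.2 b2 = 0
      constructor
      · rintro ⟨⟨h4, h5⟩, h6⟩
        exact ⟨⟨by rw [h4, h5]; ring, h6⟩, h5⟩
      · rintro ⟨⟨h4, h6⟩, h5⟩
        rw [h5, mul_zero, add_zero] at h4
        exact ⟨⟨h4, h5⟩, h6⟩))
    refine h3.iso (E' := (line (k := k)).prod (Aff (Fin m)))
      (fun V _ _ (x : ((line (k := k)).prod (Aff (Fin m))).obj V) =>
        (-(aeval x.2 c2 * Ring.inverse (aeval x.2 b2)), x.2))
      (fun V _ _ (x : ((line (k := k)).prod (Aff (Fin m))).obj V) =>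
        (-(aeval x.2 b1 * Ring.inverse (aeval x.2 b2)), x.2)) ?_ ?_ ?_ ?_ ?_
    · rintro V _ _ ⟨μ, x⟩ ⟨⟨h4, h5⟩, h6⟩
      have h7 : aeval x b1 + μ * aeval x b2 = 0 := by simpa using h4
      have h8 : aeval x c1 + μ * aeval x c2 = 0 := h5
      have h9 : IsUnit (aeval x b2) := h6
      have h10 : aeval x b2 * Ring.inverse (aeval x b2) = 1 := Ring.mul_inverse_cancel _ h9
      refine ⟨⟨?_, ?_⟩, h9⟩
      · change aeval x c1 + -(aeval x c2 * Ring.inverse (aeval x b2)) * aeval x b1 = 0
        linear_combination h8 - aeval x c2 * Ring.inverse (aeval x b2) * h7 +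
          aeval x c2 * μ * h10
      · change aeval x c2 + -(aeval x c2 * Ring.inverse (aeval x b2)) * aeval x b2 = 0
        linear_combination (-aeval x c2) * h10
    · rintro V _ _ ⟨v, x⟩ ⟨⟨h4, h5⟩, h6⟩
      have h7 : aeval x c1 + v * aeval x b1 = 0 := h4
      have h8 : aeval x c2 + v * aeval x b2 = 0 := h5
      have h9 : IsUnit (aeval x b2) := h6
      have h10 : aeval x b2 * Ring.inverse (aeval x b2) = 1 := Ring.mul_inverse_cancel _ h9
      refine ⟨⟨?_, ?_⟩, h9⟩
      · intro l hl
        rw [Finset.mem_singleton] at hl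
        subst hl
        change aeval x b1 + -(aeval x b1 * Ring.inverse (aeval x b2)) * aeval x b2 = 0
        linear_combination (-aeval x b1) * h10
      · change aeval x c1 + -(aeval x b1 * Ring.inverse (aeval x b2)) * aeval x c2 = 0
        linear_combination h7 - aeval x b1 * Ring.inverse (aeval x b2) * h8 +
          v * aeval x b1 * h10
    · rintro V _ _ ⟨μ, x⟩ ⟨⟨h4, h5⟩, h6⟩
      have h7 : aeval x b1 + μ * aeval x b2 = 0 := by simpa using h4
      have h9 : IsUnit (aeval x b2) := h6
      have h10 : aeval x b2 * Ring.inverse (aeval x b2) = 1 := Ring.mul_inverse_cancel _ h9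
      refine Prod.ext ?_ rfl
      change -(aeval x b1 * Ring.inverse (aeval x b2)) = μ
      linear_combination (-Ring.inverse (aeval x b2)) * h7 + μ * h10
    · rintro V _ _ ⟨v, x⟩ ⟨⟨h4, h5⟩, h6⟩
      have h8 : aeval x c2 + v * aeval x b2 = 0 := h5
      have h9 : IsUnit (aeval x b2) := h6
      have h10 : aeval x b2 * Ring.inverse (aeval x b2) = 1 := Ring.mul_inverse_cancel _ h9
      refine Prod.ext ?_ rfl
      change -(aeval x c2 * Ring.inverse (aeval x b2)) = v
      linear_combination (-Ring.inverse (aeval x b2)) * h8 + v * h10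
    · rintro V V' _ _ _ _ f ⟨μ, x⟩ ⟨⟨h4, h5⟩, h6⟩
      have h9 : IsUnit (aeval x b2) := h6
      refine Prod.ext ?_ rfl
      change f (-(aeval x c2 * Ring.inverse (aeval x b2))) =
        -(aeval (fun i => f (x i)) c2 * Ring.inverse (aeval (fun i => f (x i)) b2))
      have h11 : ∀ P : MvPolynomial (Fin m) k, aeval (fun i => f (x i)) P = f (aeval x P) :=
        fun P => (MvPolynomial.comp_aeval_apply (f := x) f P).symm
      rw [h11, h11, map_neg, map_mul]
      have h12 := map_inv_unit (f : V →+* V') h9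
      have h13 : f (Ring.inverse (aeval x b2)) = Ring.inverse (f (aeval x b2)) := h12
      rw [h13]
  -- the part where `b2` vanishes
  have hcl : Good (MW S W k) ((line (k := k)).prod (Aff (Fin m))) (fun V _ _ x =>
      (aeval x.2 c1 + x.1 * aeval x.2 b1 = 0 ∧ aeval x.2 c2 + x.1 * aeval x.2 b2 = 0) ∧
        (cs b2).val V x = 0) := by
    refine good_glue hS hW (hft0.ft_cls1 (cs b2)) (cs b1) ?_ ?_
    · -- both vanish
      have h1 := good_line hS hind
      refine h1.iso (E' := (line (k := k)).prod (Aff (Fin m)))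
        (fun V _ _ (x : ((Aff (k := k) (Fin m)).prod line).obj V) => (x.2, x.1))
        (fun V _ _ (x : ((line (k := k)).prod (Aff (Fin m))).obj V) => (x.2, x.1)) ?_ ?_ (fun _ _ _ _ _ => rfl) (fun _ _ _ _ _ => rfl)
        (fun _ _ _ _ _ _ _ _ _ => rfl)
      · rintro V _ _ ⟨x, v⟩ ⟨⟨h2, h3⟩, h4, h5⟩
        have h2 : aeval x b1 = 0 := h2
        have h3 : aeval x b2 = 0 := h3
        have h4 : aeval x c1 = 0 := h4
        have h5 : aeval x c2 = 0 := h5
        change ((aeval x c1 + v * aeval x b1 = 0 ∧ aeval x c2 + v * aeval x b2 = 0) ∧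
          aeval x b2 = 0) ∧ aeval x b1 = 0
        rw [h2, h3, h4, h5]
        simp
      · rintro V _ _ ⟨v, x⟩ ⟨⟨⟨h2, h3⟩, h4⟩, h5⟩
        have h2 : aeval x c1 + v * aeval x b1 = 0 := h2
        have h3 : aeval x c2 + v * aeval x b2 = 0 := h3
        have h4 : aeval x b2 = 0 := h4
        have h5 : aeval x b1 = 0 := h5
        rw [h5, mul_zero, add_zero] at h2
        rw [h4, mul_zero, add_zero] at h3
        exact ⟨⟨h5, h4⟩, h2, h3⟩
    · -- `b1` is invertible
      have h1 := good_quadric (k := k) hS hW hfam {b2} (by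
        intro l hl
        rw [Finset.mem_singleton] at hl
        subst hl
        exact hb2) c2 hc2
      have h2 := good_quadric (k := k) hS hW hfam {b1, b2} (by
        intro l hl
        rw [Finset.mem_insert, Finset.mem_singleton] at hl
        rcases hl with rfl | rfl
        · exact hb1
        · exact hb2) c2 hc2
      have h3 := good_opn hS h1 (ca b1) (h2.congr (fun V _ _ x => by
        simp only [Finset.mem_insert, Finset.mem_singleton, forall_eq_or_imp, forall_eq]
        change _ ↔ _ ∧ aeval x b1 = 0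
        tauto))
      refine h3.iso (E' := (line (k := k)).prod (Aff (Fin m)))
        (fun V _ _ (x : (Aff (k := k) (Fin m)).obj V) =>
          (-(aeval x c1 * Ring.inverse (aeval x b1)), x))
        (fun V _ _ (x : ((line (k := k)).prod (Aff (Fin m))).obj V) => x.2) ?_ ?_ (fun _ _ _ _ _ => rfl) ?_ ?_
      · rintro V _ _ x ⟨⟨h4, h5⟩, h6⟩
        have h4 : aeval x b2 = 0 := by simpa using h4
        have h5 : aeval x c2 = 0 := h5
        have h6 : IsUnit (aeval x b1) := h6
        have h10 : aeval x b1 * Ring.inverse (aeval x b1) = 1 := Ring.mul_inverse_cancel _ h6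
        change ((aeval x c1 + -(aeval x c1 * Ring.inverse (aeval x b1)) * aeval x b1 = 0 ∧
          aeval x c2 + -(aeval x c1 * Ring.inverse (aeval x b1)) * aeval x b2 = 0) ∧
          aeval x b2 = 0) ∧ IsUnit (aeval x b1)
        refine ⟨⟨⟨?_, ?_⟩, h4⟩, h6⟩
        · linear_combination (-aeval x c1) * h10
        · rw [h4, h5]
          ring
      · rintro V _ _ ⟨v, x⟩ ⟨⟨⟨h2, h3⟩, h4⟩, h5⟩
        have h3 : aeval x c2 + v * aeval x b2 = 0 := h3
        have h4 : aeval x b2 = 0 := h4
        have h5 : IsUnit (aeval x b1) := h5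
        rw [h4, mul_zero, add_zero] at h3
        refine ⟨⟨?_, h3⟩, h5⟩
        intro l hl
        rw [Finset.mem_singleton] at hl
        subst hl
        exact h4
      · rintro V _ _ ⟨v, x⟩ ⟨⟨⟨h2, h3⟩, h4⟩, h5⟩
        have h2 : aeval x c1 + v * aeval x b1 = 0 := h2
        have h5 : IsUnit (aeval x b1) := h5
        have h10 : aeval x b1 * Ring.inverse (aeval x b1) = 1 := Ring.mul_inverse_cancel _ h5
        refine Prod.ext ?_ rfl
        change -(aeval x c1 * Ring.inverse (aeval x b1)) = v
        linear_combination (-Ring.inverse (aeval x b1)) * h2 + v * h10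
      · rintro V V' _ _ _ _ f x ⟨⟨h4, h5⟩, h6⟩
        have h9 : IsUnit (aeval x b1) := h6
        refine Prod.ext ?_ rfl
        change f (-(aeval x c1 * Ring.inverse (aeval x b1))) =
          -(aeval (fun i => f (x i)) c1 * Ring.inverse (aeval (fun i => f (x i)) b1))
        have h11 : ∀ P : MvPolynomial (Fin m) k, aeval (fun i => f (x i)) P = f (aeval x P) :=
          fun P => (MvPolynomial.comp_aeval_apply (f := x) f P).symm
        rw [h11, h11, map_neg, map_mul]
        have h12 := map_inv_unit (f : V →+* V') h9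
        have h13 : f (Ring.inverse (aeval x b1)) = Ring.inverse (f (aeval x b1)) := h12
        rw [h13]
  exact good_glue hS hW hft0 (cs b2) hcl hopen

end Pool.Agent.Helper36.TQ
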